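import Pool.Agent.Helper39.Criteria

set_option autoImplicit false
set_option linter.unusedSectionVars false

/-!
Local counting in digraphs without closed walks of length at most `3`: if every two vertices have
a common out-neighbour there are at least `13` vertices, if every three have one, at least `38`.
-/

namespace Pool.Agent.Helper82.PD

open Pool.Agent.Helper39 Finset

section

variable {V : Type} [Fintype V] [DecidableEq V] {N : V → V → Prop} [DecidableRel N]

theorem ns1 (hs : NoShort N 3) (a : V) : ¬ N a a := by
  intro h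
  exact hs 1 (by omega) (by omega) a (pw_one.mpr h)

theorem ns2 (hs : NoShort N 3) {a b : V} (h : N a b) : ¬ N b a := by
  intro h'
  exact hs 2 (by omega) (by omega) a (pw_add (pw_one.mpr h) (pw_one.mpr h'))

theorem ns3 (hs : NoShort N 3) {a b c : V} (h : N a b) (h' : N b c) : ¬ N c a := by
  intro h''
  exact hs 3 (by omega) (by omega) a
    (pw_add (pw_add (pw_one.mpr h) (pw_one.mpr h')) (pw_one.mpr h''))

theorem inner_arcs (hs : NoShort N 3) (X : Finset V) :
    2 * ∑ w ∈ X, (X.filter (fun u => N w u)).card ≤ X.card * X.card - X.card := by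
  classical
  rw [sum_out, ← Finset.offDiag_card, two_mul]
  have h3 : ((X ×ˢ X).filter (fun p => N p.1 p.2)).card
      = ((X ×ˢ X).filter (fun p => N p.2 p.1)).card := by
    exact (sum_out (R := N) X).symm.trans (sum_in (R := fun a b => N b a) X)
  nth_rewrite 2 [h3]
  rw [← Finset.card_union_of_disjoint]
  · apply Finset.card_le_card
    intro p hp
    rw [Finset.mem_union, Finset.mem_filter, Finset.mem_filter] at hp
    rw [Finset.mem_offDiag]
    have hpp : p ∈ X ×ˢ X := by rcases hp with h | h <;> exact h.1
    rw [Finset.mem_product] at hpp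
    refine ⟨hpp.1, hpp.2, ?_⟩
    intro heq
    rcases hp with h | h
    · have h2 := h.2
      rw [heq] at h2
      exact ns1 hs _ h2
    · have h2 := h.2
      rw [heq] at h2
      exact ns1 hs _ h2
  · rw [Finset.disjoint_left]
    intro p hp hp'
    rw [Finset.mem_filter] at hp hp'
    exact ns2 hs hp.2 hp'.2

/-- Some vertex has at least as many in-neighbours as out-neighbours. -/
theorem exists_in_ge_out [Nonempty V] : ∃ v : V,
    (univ.filter (fun u => N v u)).card ≤ (univ.filter (fun u => N u v)).card := by
  by_contra hcon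
  push Not at hcon
  have h1 : ∑ v : V, (univ.filter (fun u => N u v)).card
      < ∑ v : V, (univ.filter (fun u => N v u)).card :=
    Finset.sum_lt_sum_of_nonempty Finset.univ_nonempty fun v _ => hcon v
  rw [sum_out, sum_in] at h1
  exact lt_irrefl _ h1

theorem local_count [Nonempty V] (hs : NoShort N 3) (a b : ℕ)
    (ha : ∀ v : V, a ≤ (univ.filter (fun u => N v u)).card)
    (hb : ∀ v q : V, v ≠ q → b ≤ (univ.filter (fun u => N v u ∧ N q u)).card) :
    ∃ d Q : ℕ, a ≤ d ∧ 1 + 2 * d + Q ≤ Fintype.card V ∧
      2 * (d * a) ≤ (d * d - d) + 2 * (Q * (d - b)) := by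
  classical
  obtain ⟨v, hv⟩ := exists_in_ge_out (V := V) (N := N)
  set O := univ.filter (fun u => N v u) with hO
  set I := univ.filter (fun u => N u v) with hI
  set Q := univ.filter (fun u => u ≠ v ∧ ¬ N v u ∧ ¬ N u v) with hQ
  refine ⟨O.card, Q.card, ha v, ?_, ?_⟩
  · have h1 : ({v} ∪ O ∪ I ∪ Q).card = 1 + O.card + I.card + Q.card := by
      rw [Finset.card_union_of_disjoint, Finset.card_union_of_disjoint,
        Finset.card_union_of_disjoint, Finset.card_singleton]
      · rw [Finset.disjoint_left]
        intro x hx hx'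
        rw [Finset.mem_singleton] at hx
        subst hx
        exact ns1 hs _ (Finset.mem_filter.mp hx').2
      · rw [Finset.disjoint_left]
        intro x hx hx'
        have h2 := (Finset.mem_filter.mp hx').2
        rw [Finset.mem_union, Finset.mem_singleton] at hx
        rcases hx with hx | hx
        · subst hx
          exact ns1 hs _ h2
        · exact ns2 hs h2 (Finset.mem_filter.mp hx).2
      · rw [Finset.disjoint_left]
        intro x hx hx'
        have h2 := (Finset.mem_filter.mp hx').2
        rw [Finset.mem_union, Finset.mem_union, Finset.mem_singleton] at hx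
        rcases hx with (hx | hx) | hx
        · exact h2.1 hx
        · exact h2.2.1 (Finset.mem_filter.mp hx).2
        · exact h2.2.2 (Finset.mem_filter.mp hx).2
    have h2 : ({v} ∪ O ∪ I ∪ Q).card ≤ Fintype.card V := Finset.card_le_univ _
    omega
  · have h1 : O.card * a ≤ ∑ w ∈ O, (univ.filter (fun u => N w u)).card := by
      rw [← smul_eq_mul, ← Finset.sum_const]
      exact Finset.sum_le_sum fun w _ => ha w
    have h2 : ∀ w ∈ O, (univ.filter (fun u => N w u)).card
        ≤ (O.filter (fun u => N w u)).card + (Q.filter (fun u => N w u)).card := by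
      intro w hw
      have hw' : N v w := (Finset.mem_filter.mp hw).2
      refine le_trans (Finset.card_le_card ?_) (Finset.card_union_le _ _)
      intro u hu
      have hu' : N w u := (Finset.mem_filter.mp hu).2
      rw [Finset.mem_union]
      by_cases h : N v u
      · exact Or.inl (Finset.mem_filter.mpr
          ⟨Finset.mem_filter.mpr ⟨Finset.mem_univ _, h⟩, hu'⟩)
      · refine Or.inr (Finset.mem_filter.mpr
          ⟨Finset.mem_filter.mpr ⟨Finset.mem_univ _, ?_, h, ns3 hs hw' hu'⟩, hu'⟩)
        rintro rfl
        exact ns2 hs hw' hu'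
    have h3 : ∑ w ∈ O, (Q.filter (fun u => N w u)).card ≤ Q.card * (O.card - b) := by
      have e : ∑ w ∈ O, (Q.filter (fun u => N w u)).card
          = ∑ q ∈ Q, (O.filter (fun w => N w q)).card := by
        simp only [Finset.card_filter]
        rw [Finset.sum_comm]
      rw [e, ← smul_eq_mul, ← Finset.sum_const]
      refine Finset.sum_le_sum fun q hq => ?_
      have hq' := (Finset.mem_filter.mp hq).2
      have h4 : b ≤ (O.filter (fun w => N q w)).card := by
        refine le_trans (hb v q (Ne.symm hq'.1)) (Finset.card_le_card ?_)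
        intro u hu
        have hu' := (Finset.mem_filter.mp hu).2
        rw [Finset.mem_filter]
        exact ⟨Finset.mem_filter.mpr ⟨Finset.mem_univ _, hu'.1⟩, hu'.2⟩
      have h5 : (O.filter (fun w => N w q)).card + (O.filter (fun w => N q w)).card
          ≤ O.card := by
        rw [← Finset.card_union_of_disjoint]
        · refine Finset.card_le_card ?_
          intro u hu
          rw [Finset.mem_union] at hu
          rcases hu with h | h <;> exact (Finset.mem_filter.mp h).1
        · rw [Finset.disjoint_left]
          intro u hu hu'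
          exact ns2 hs (Finset.mem_filter.mp hu).2 (Finset.mem_filter.mp hu').2
      omega
    have h4 := inner_arcs hs O
    have h5 : ∑ w ∈ O, (univ.filter (fun u => N w u)).card
        ≤ ∑ w ∈ O, (O.filter (fun u => N w u)).card
          + ∑ w ∈ O, (Q.filter (fun u => N w u)).card := by
      rw [← Finset.sum_add_distrib]
      exact Finset.sum_le_sum h2
    omega

end

/-- `F` vertices are needed when every `p` vertices have a common out-neighbour. -/
def Need (p F : ℕ) : Prop :=
  ∀ (V : Type) [Fintype V] [Nonempty V] (N : V → V → Prop), NoShort N 3 → Common N p →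
    F ≤ Fintype.card V

theorem need_one : Need 1 4 := by
  classical
  intro V _ _ N hs hc
  by_contra hcon
  push Not at hcon
  let e : V ≃ Fin (Fintype.card V) := Fintype.equivFin V
  obtain ⟨f, hf⟩ := exists_sink (g := 3) Fintype.card_pos (by omega)
    (fun a b => N (e.symm a) (e.symm b)) (noShort_comap e.symm hs)
  obtain ⟨u, hu⟩ := hc (fun _ => e.symm f)
  have := hf (e u)
  rw [Equiv.symm_apply_apply] at this
  exact this (hu 0)

theorem noShort_sub {V : Type} {N : V → V → Prop} {g : ℕ} (hs : NoShort N g) (P : V → Prop) :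
    NoShort (fun a b : {x // P x} => N a.1 b.1) g :=
  noShort_comap (fun a : {x // P x} => a.1) hs

theorem need_card {V : Type} [Fintype V] {N : V → V → Prop} {p F : ℕ} (hF : Need p F)
    (hs : NoShort N 3) (P : V → Prop) [DecidablePred P] (hne : ∃ x, P x)
    (hP : ∀ f : Fin p → V, (∀ i, P (f i)) → ∃ u, P u ∧ ∀ i, N (f i) u) :
    F ≤ (univ.filter P).card := by
  classical
  obtain ⟨x, hx⟩ := hne
  have : Nonempty {x // P x} := ⟨⟨x, hx⟩⟩
  have h := hF {x // P x} (fun a b => N a.1 b.1) (noShort_sub hs P) (by
    intro f
    obtain ⟨u, hu, hfu⟩ := hP (fun i => (f i).1) (fun i => (f i).2)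
    exact ⟨⟨u, hu⟩, hfu⟩)
  rwa [Fintype.card_subtype] at h

theorem need_two : Need 2 13 := by
  classical
  intro V _ _ N hs hc
  obtain ⟨d, Q, h1, h2, h3⟩ := local_count hs 4 1 (by
    intro v
    refine need_card need_one hs (fun u => N v u) ?_ ?_
    · obtain ⟨u, hu⟩ := hc (fun _ => v)
      exact ⟨u, hu 0⟩
    · intro f _
      obtain ⟨u, hu⟩ := hc (Fin.cons v f)
      exact ⟨u, by simpa using hu 0, fun i => by simpa using hu i.succ⟩) (by
    intro v q _
    obtain ⟨u, hu⟩ := hc ![v, q]
    rw [Nat.one_le_iff_ne_zero, ← Nat.pos_iff_ne_zero, Finset.card_pos]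
    refine ⟨u, Finset.mem_filter.mpr ⟨Finset.mem_univ _, ?_, ?_⟩⟩
    · simpa using hu 0
    · simpa using hu 1)
  by_contra hcon
  push Not at hcon
  have hd : d = 4 ∨ d = 5 := by omega
  rcases hd with rfl | rfl
  · omega
  · omega

theorem need_three : Need 3 38 := by
  classical
  intro V _ _ N hs hc
  obtain ⟨d, Q, h1, h2, h3⟩ := local_count hs 13 4 (by
    intro v
    refine need_card need_two hs (fun u => N v u) ?_ ?_
    · obtain ⟨u, hu⟩ := hc (fun _ => v)
      exact ⟨u, hu 0⟩
    · intro f _
      obtain ⟨u, hu⟩ := hc (Fin.cons v f)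
      exact ⟨u, by simpa using hu 0, fun i => by simpa using hu i.succ⟩) (by
    intro v q _
    refine need_card need_one hs (fun u => N v u ∧ N q u) ?_ ?_
    · obtain ⟨u, hu⟩ := hc ![v, q, q]
      exact ⟨u, by simpa using hu 0, by simpa using hu 1⟩
    · intro f _
      obtain ⟨u, hu⟩ := hc ![v, q, f 0]
      refine ⟨u, ⟨by simpa using hu 0, by simpa using hu 1⟩, fun i => ?_⟩
      have hi : i = 0 := Subsingleton.elim _ _
      subst hi
      simpa using hu 2)
  by_contra hcon
  push Not at hcon
  have hd : d = 13 ∨ d = 14 ∨ d = 15 ∨ d = 16 ∨ d = 17 ∨ d = 18 := by omega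
  rcases hd with rfl | rfl | rfl | rfl | rfl | rfl <;> omega

theorem crit_of_need {p r F : ℕ} (hp : 1 ≤ p) (hpr : p ≤ r) (hF : Need p F) (hr : r < F) :
    Crit p r 3 := by
  classical
  intro N hN
  by_contra hcon
  push Not at hcon
  have hc : Common N p := common_of_not_crit hpr N (fun P hP => hcon P hP)
  have hne : Nonempty (Fin r) := ⟨⟨0, by omega⟩⟩
  have := hF (Fin r) N hN hc
  rw [Fintype.card_fin] at this
  omega

end Pool.Agent.Helper82.PD
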