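import Pool.Agent.Helper39.Criteria

set_option autoImplicit false

/-!
Two relations on a finite set, one avoiding the converse of the other: the linear programming
bound, and the resulting criterion for digraphs without closed walks of length at most `2 j + 1`.
-/

namespace Pool.Agent.Helper82.PD

open Pool.Agent.Helper39

/-- The minimax theorem for matrix games. -/
theorem game {I J : Type} [Fintype I] [Fintype J] [Nonempty I] [Nonempty J] [DecidableEq I]
    [DecidableEq J] (M : I → J → ℝ) : ∃ x : I → ℝ, ∃ y : J → ℝ, ∃ v : ℝ,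
    (∀ i, 0 ≤ x i) ∧ ∑ i, x i = 1 ∧ (∀ j, 0 ≤ y j) ∧ ∑ j, y j = 1 ∧
      (∀ j, ∑ i, x i * M i j ≤ v) ∧ (∀ i, v ≤ ∑ j, M i j * y j) := by
  set f : (I → ℝ) → (J → ℝ) → ℝ := fun x y => ∑ i, ∑ j, x i * M i j * y j with hf
  have hlin1 : ∀ y : J → ℝ, ∀ x x' : I → ℝ, ∀ α β : ℝ,
      f (α • x + β • x') y = α * f x y + β * f x' y := by
    intro y x x' α β
    simp only [hf, Pi.add_apply, Pi.smul_apply, smul_eq_mul, Finset.mul_sum]
    rw [← Finset.sum_add_distrib]
    refine Finset.sum_congr rfl fun i _ => ?_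
    rw [← Finset.sum_add_distrib]
    refine Finset.sum_congr rfl fun j _ => ?_
    ring
  have hlin2 : ∀ x : I → ℝ, ∀ y y' : J → ℝ, ∀ α β : ℝ,
      f x (α • y + β • y') = α * f x y + β * f x y' := by
    intro x y y' α β
    simp only [hf, Pi.add_apply, Pi.smul_apply, smul_eq_mul, Finset.mul_sum]
    rw [← Finset.sum_add_distrib]
    refine Finset.sum_congr rfl fun i _ => ?_
    rw [← Finset.sum_add_distrib]
    refine Finset.sum_congr rfl fun j _ => ?_
    ring
  have hconv : ∀ y : J → ℝ, ConvexOn ℝ (stdSimplex ℝ I) fun x => f x y := by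
    intro y
    refine ⟨convex_stdSimplex ℝ I, fun x _ x' _ α β _ _ _ => ?_⟩
    simp only [smul_eq_mul]
    rw [hlin1]
  have hconc : ∀ x : I → ℝ, ConcaveOn ℝ (stdSimplex ℝ J) fun y => f x y := by
    intro x
    refine ⟨convex_stdSimplex ℝ J, fun y _ y' _ α β _ _ _ => ?_⟩
    simp only [smul_eq_mul]
    rw [hlin2]
  have hc1 : ∀ y : J → ℝ, Continuous fun x => f x y := by
    intro y
    simp only [hf]
    fun_prop
  have hc2 : ∀ x : I → ℝ, Continuous fun y => f x y := by
    intro x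
    simp only [hf]
    fun_prop
  obtain ⟨i₀⟩ := ‹Nonempty I›
  obtain ⟨j₀⟩ := ‹Nonempty J›
  obtain ⟨a, ha, b, hb, hab⟩ := Sion.exists_isSaddlePointOn (X := stdSimplex ℝ I)
    (Y := stdSimplex ℝ J) (f := f) ⟨_, single_mem_stdSimplex ℝ i₀⟩ (convex_stdSimplex ℝ I)
    (isCompact_stdSimplex ℝ I) (fun y _ => (hc1 y).lowerSemicontinuous.lowerSemicontinuousOn _)
    (fun y _ => (hconv y).quasiconvexOn) (convex_stdSimplex ℝ J)
    ⟨_, single_mem_stdSimplex ℝ j₀⟩ (isCompact_stdSimplex ℝ J)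
    (fun x _ => (hc2 x).upperSemicontinuous.upperSemicontinuousOn _)
    (fun x _ => (hconc x).quasiconcaveOn)
  refine ⟨a, b, f a b, ha.1, ha.2, hb.1, hb.2, fun j => ?_, fun i => ?_⟩
  · have h := hab a ha (Pi.single j 1) (single_mem_stdSimplex ℝ j)
    refine le_trans (le_of_eq ?_) h
    simp only [hf]
    refine Finset.sum_congr rfl fun i _ => ?_
    rw [Finset.sum_eq_single j]
    · rw [Pi.single_eq_same, mul_one]
    · intro j' _ hj'
      rw [Pi.single_eq_of_ne hj', mul_zero]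
    · intro h
      exact absurd (Finset.mem_univ j) h
  · have h := hab (Pi.single i 1) (single_mem_stdSimplex ℝ i) b hb
    refine le_trans h (le_of_eq ?_)
    simp only [hf]
    rw [Finset.sum_eq_single i]
    · refine Finset.sum_congr rfl fun j _ => ?_
      rw [Pi.single_eq_same, one_mul]
    · intro i' _ hi'
      refine Finset.sum_eq_zero fun j _ => ?_
      rw [Pi.single_eq_of_ne hi', zero_mul, zero_mul]
    · intro h
      exact absurd (Finset.mem_univ i) h

/-- Sampling `k` independent points from a distribution whose in-neighbourhoods are small. -/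
theorem sample {V : Type} [Fintype V] {T : V → V → Prop} [DecidableRel T] {k : ℕ}
    (hT : Common T k) (x : V → ℝ) (hx : ∀ a, 0 ≤ x a) (hx1 : ∑ a, x a = 1) (θ : ℝ)
    (hθ : ∀ u, ∑ a, x a * (if T a u then 1 else 0) ≤ θ) :
    1 ≤ (Fintype.card V : ℝ) * θ ^ k := by
  classical
  have h0 : ∀ u, 0 ≤ ∑ a, x a * (if T a u then (1 : ℝ) else 0) := by
    intro u
    refine Finset.sum_nonneg fun a _ => mul_nonneg (hx a) ?_
    split_ifs <;> norm_num
  have h1 : (1 : ℝ) = ∑ f : Fin k → V, ∏ i, x (f i) := by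
    rw [← Fintype.sum_pow, hx1, one_pow]
  have h2 : ∀ f : Fin k → V, ∏ i, x (f i)
      ≤ ∑ u, ∏ i, (x (f i) * (if T (f i) u then (1 : ℝ) else 0)) := by
    intro f
    obtain ⟨u, hu⟩ := hT f
    have h3 : ∏ i, x (f i) = ∏ i, (x (f i) * (if T (f i) u then (1 : ℝ) else 0)) := by
      refine Finset.prod_congr rfl fun i _ => ?_
      rw [if_pos (hu i), mul_one]
    rw [h3]
    exact Finset.single_le_sum
      (f := fun u => ∏ i, (x (f i) * (if T (f i) u then (1 : ℝ) else 0)))
      (fun u _ => Finset.prod_nonneg fun i _ => mul_nonneg (hx _) (by split_ifs <;> norm_num))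
      (Finset.mem_univ u)
  calc (1 : ℝ) = ∑ f : Fin k → V, ∏ i, x (f i) := h1
    _ ≤ ∑ f : Fin k → V, ∑ u, ∏ i, (x (f i) * (if T (f i) u then (1 : ℝ) else 0)) :=
        Finset.sum_le_sum fun f _ => h2 f
    _ = ∑ u, ∑ f : Fin k → V, ∏ i, (x (f i) * (if T (f i) u then (1 : ℝ) else 0)) :=
        Finset.sum_comm
    _ = ∑ u, (∑ a, x a * (if T a u then (1 : ℝ) else 0)) ^ k := by
        refine Finset.sum_congr rfl fun u _ => ?_
        rw [Fintype.sum_pow]
    _ ≤ ∑ _u : V, θ ^ k := Finset.sum_le_sum fun u _ => pow_le_pow_left₀ (h0 u) (hθ u) k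
    _ = (Fintype.card V : ℝ) * θ ^ k := by
        rw [Finset.sum_const, nsmul_eq_mul, Finset.card_univ]

/-- The linear programming bound: if `R` avoids the converse of `S`, every `k` points have a
common `R`-out-neighbour and every `m` points a common `S`-out-neighbour, then
`1 ≤ |V| v^k` and `1 ≤ |V| (1-v)^m` for some `v`. -/
theorem lp {V : Type} [Fintype V] [Nonempty V] {R S : V → V → Prop} {k m : ℕ}
    (hRS : ∀ a b, R a b → ¬ S b a) (hR : Common R k) (hS : Common S m) :
    ∃ v : ℝ, 0 ≤ v ∧ v ≤ 1 ∧ 1 ≤ (Fintype.card V : ℝ) * v ^ k ∧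
      1 ≤ (Fintype.card V : ℝ) * (1 - v) ^ m := by
  classical
  obtain ⟨x, y, v, hx, hx1, hy, hy1, hxv, hyv⟩ :=
    game (fun a b : V => if R a b then (1 : ℝ) else 0)
  obtain ⟨a₀⟩ := ‹Nonempty V›
  have hv0 : 0 ≤ v := by
    refine le_trans (Finset.sum_nonneg fun a _ => mul_nonneg (hx a) ?_) (hxv a₀)
    split_ifs <;> norm_num
  have hsum : ∀ a, ∑ b, y b * (if S b a then (1 : ℝ) else 0) ≤ 1 - v := by
    intro a
    have h1 := hyv a
    have h2 : (∑ b, (if R a b then (1 : ℝ) else 0) * y b)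
        + ∑ b, y b * (if S b a then (1 : ℝ) else 0) ≤ ∑ b, y b := by
      rw [← Finset.sum_add_distrib]
      refine Finset.sum_le_sum fun b _ => ?_
      by_cases hr : R a b
      · rw [if_pos hr, if_neg (hRS a b hr)]
        linarith
      · rw [if_neg hr]
        split_ifs
        · linarith
        · linarith [hy b]
    rw [hy1] at h2
    linarith
  have hv1 : v ≤ 1 := by
    have h1 := hsum a₀
    have h2 : 0 ≤ ∑ b, y b * (if S b a₀ then (1 : ℝ) else 0) :=
      Finset.sum_nonneg fun a _ => mul_nonneg (hy a) (by split_ifs <;> norm_num)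
    linarith
  exact ⟨v, hv0, hv1, sample hR x hx hx1 v hxv, sample hS y hy hy1 (1 - v) hsum⟩

/-- Digraphs on `r` vertices without closed walks of length at most `2 j + 1`: if
`t + t ^ p ≥ 1` and `r t ^ (p ^ (j+1)) < 1`, then some `p` vertices have no common
out-neighbour. -/
theorem crit_odd {p r j : ℕ} (hp : 1 ≤ p) (hpr : p ≤ r) (t : ℝ) (_ht : 0 < t)
    (h1 : 1 ≤ t + t ^ p) (h2 : (r : ℝ) * t ^ (p ^ (j + 1)) < 1) : Crit p r (2 * j + 1) := by
  classical
  intro N hN
  by_contra hcon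
  push Not at hcon
  have hc : Common N p := common_of_not_crit hpr N (fun P hP => hcon P hP)
  have hne : Nonempty (Fin r) := ⟨⟨0, by omega⟩⟩
  obtain ⟨v, hv0, hv1, hva, hvb⟩ := lp (R := pw N j) (S := pw N (j + 1)) (by
    intro a b hab hba
    exact hN (j + (j + 1)) (by omega) (by omega) a (pw_add hab hba))
    (common_pow hc j) (common_pow hc (j + 1))
  rw [Fintype.card_fin] at hva hvb
  have hr0 : (0 : ℝ) ≤ r := by positivity
  have hA : t < 1 - v := by
    by_contra hle
    push Not at hle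
    have h3 : (1 - v) ^ (p ^ (j + 1)) ≤ t ^ (p ^ (j + 1)) :=
      pow_le_pow_left₀ (by linarith) hle _
    have := mul_le_mul_of_nonneg_left h3 hr0
    linarith
  have hB : t ^ p < v := by
    by_contra hle
    push Not at hle
    have h3 : v ^ (p ^ j) ≤ (t ^ p) ^ (p ^ j) := pow_le_pow_left₀ hv0 hle _
    rw [← pow_mul, ← pow_succ'] at h3
    have := mul_le_mul_of_nonneg_left h3 hr0
    linarith
  linarith

/-- The explicit form: `r ^ 2 < p ^ (p ^ j)`. -/
theorem crit_odd_sq {p r j : ℕ} (hp : 1 ≤ p) (hpr : p ≤ r) (h : r ^ 2 < p ^ (p ^ j)) :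
    Crit p r (2 * j + 1) := by
  have hp0 : (0 : ℝ) < p := by exact_mod_cast hp
  have hp1 : (1 : ℝ) ≤ p := by exact_mod_cast hp
  set t : ℝ := (p : ℝ) ^ (-(1 / (2 * (p : ℝ)))) with ht
  have htp : 0 < t := Real.rpow_pos_of_pos hp0 _
  have htpow : ∀ m : ℕ, t ^ m = (p : ℝ) ^ (-((m : ℝ) / (2 * (p : ℝ)))) := by
    intro m
    rw [ht, ← Real.rpow_natCast, ← Real.rpow_mul hp0.le]
    congr 1
    ring
  have hs : t ^ p = (Real.sqrt p)⁻¹ := by
    rw [htpow, Real.sqrt_eq_rpow, ← Real.rpow_neg hp0.le]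
    congr 1
    field_simp
  refine crit_odd hp hpr t htp ?_ ?_
  · rw [hs]
    have hsq : 0 < Real.sqrt p := Real.sqrt_pos.mpr hp0
    have h1 : 1 - Real.log p / (2 * p) ≤ t := by
      have h2 : t = Real.exp (-(Real.log p / (2 * p))) := by
        rw [ht, Real.rpow_def_of_pos hp0]
        congr 1
        ring
      rw [h2]
      have := Real.add_one_le_exp (-(Real.log p / (2 * p)))
      linarith
    have h3 : Real.log p / (2 * p) ≤ (Real.sqrt p)⁻¹ := by
      have h4 : Real.log p ≤ 2 * Real.sqrt p := by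
        have h5 : Real.log (Real.sqrt p) ≤ Real.sqrt p :=
          le_trans (Real.log_le_sub_one_of_pos hsq) (by linarith)
        rw [Real.log_sqrt hp0.le] at h5
        linarith
      have h6 : Real.sqrt p * Real.sqrt p = p := Real.mul_self_sqrt hp0.le
      rw [div_le_iff₀ (by positivity)]
      calc Real.log p ≤ 2 * Real.sqrt p := h4
        _ = (Real.sqrt p)⁻¹ * (2 * (Real.sqrt p * Real.sqrt p)) := by field_simp
        _ = (Real.sqrt p)⁻¹ * (2 * p) := by rw [h6]
    linarith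
  · rw [htpow]
    have h1 : (((p ^ (j + 1) : ℕ) : ℝ) / (2 * (p : ℝ))) = ((p ^ j : ℕ) : ℝ) / 2 := by
      push_cast
      rw [pow_succ]
      field_simp
    rw [h1, Real.rpow_neg hp0.le, ← div_eq_mul_inv, div_lt_one (Real.rpow_pos_of_pos hp0 _)]
    have h2 : ((p : ℝ) ^ (((p ^ j : ℕ) : ℝ) / 2)) ^ 2 = ((p ^ (p ^ j) : ℕ) : ℝ) := by
      rw [← Real.rpow_natCast, ← Real.rpow_mul hp0.le]
      push_cast
      rw [show ((p : ℝ) ^ j / 2 * 2) = ((p ^ j : ℕ) : ℝ) by push_cast; ring, Real.rpow_natCast]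
    have h3 : ((r : ℝ)) ^ 2 < ((p : ℝ) ^ (((p ^ j : ℕ) : ℝ) / 2)) ^ 2 := by
      rw [h2]
      exact_mod_cast h
    exact lt_of_pow_lt_pow_left₀ 2 (Real.rpow_pos_of_pos hp0 _).le h3

end Pool.Agent.Helper82.PD
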